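import Mathlib

/-!
LP duality / certificates for bounded corrections (n-free Beck-Fiala).

* `cert_iff` : a correction `x`, `|x v| ≤ β v`, with errors `|c S - (A x) S| ≤ ρ S` exists iff
  `⟨c,y⟩ ≤ ∑ v, β v |(Aᵀ y) v| + ∑ S, ρ S |y S|` for all real `y`.
* `cert_subspace` : if `⟨ξ,f⟩ ≤ ∑ v, β v |f v|` for all `f` in a subspace `F` then `ξ - h ⟂ F` for some
  `h` with `|h v| ≤ β v`.
-/

namespace Pool.Agent.Helper92.NF

open Finset

variable {ι κ : Type*} [Fintype ι] [Fintype κ]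

/-- the set of reachable right hand sides -/
def Reach (A : ι → κ → ℝ) (β : κ → ℝ) (ρ : ι → ℝ) : Set (ι → ℝ) :=
  (fun p : (κ → ℝ) × (ι → ℝ) => fun S => ∑ v, A S v * p.1 v + p.2 S) ''
    (Set.Icc (fun v => - β v) β ×ˢ Set.Icc (fun S => - ρ S) ρ)

theorem reach_convex (A : ι → κ → ℝ) (β : κ → ℝ) (ρ : ι → ℝ) : Convex ℝ (Reach A β ρ) := by
  unfold Reach
  have hlin : IsLinearMap ℝ (fun p : (κ → ℝ) × (ι → ℝ) => fun S => ∑ v, A S v * p.1 v + p.2 S) := by
    constructor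
    · intro p q
      funext S
      simp only [Prod.fst_add, Prod.snd_add, Pi.add_apply, mul_add, Finset.sum_add_distrib]
      ring
    · intro a p
      funext S
      simp only [Prod.smul_fst, Prod.smul_snd, Pi.smul_apply, smul_eq_mul, mul_add, Finset.mul_sum]
      congr 1
      exact Finset.sum_congr rfl fun v _ => by ring
  exact ((convex_Icc _ _).prod (convex_Icc _ _)).is_linear_image hlin

theorem reach_compact (A : ι → κ → ℝ) (β : κ → ℝ) (ρ : ι → ℝ) : IsCompact (Reach A β ρ) := by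
  unfold Reach
  apply (isCompact_Icc.prod isCompact_Icc).image
  fun_prop

theorem mul_sign_eq_abs (a : ℝ) : a * (SignType.sign a : ℝ) = |a| := by
  rw [mul_comm]
  exact sign_mul_self a

theorem cert_exists (A : ι → κ → ℝ) (c : ι → ℝ) (β : κ → ℝ) (ρ : ι → ℝ)
    (hβ : ∀ v, 0 ≤ β v) (hρ : ∀ S, 0 ≤ ρ S)
    (h : ∀ y : ι → ℝ, ∑ S, c S * y S ≤
      ∑ v, β v * |∑ S, A S v * y S| + ∑ S, ρ S * |y S|) :
    ∃ x : κ → ℝ, (∀ v, |x v| ≤ β v) ∧ ∀ S, |c S - ∑ v, A S v * x v| ≤ ρ S := by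
  classical
  by_cases hc : c ∈ Reach A β ρ
  · obtain ⟨⟨x, r⟩, hxr, hcx⟩ := hc
    simp only [Set.mem_prod, Set.mem_Icc] at hxr
    refine ⟨x, fun v => abs_le.mpr ⟨hxr.1.1 v, hxr.1.2 v⟩, fun S => ?_⟩
    have h1 : c S = ∑ v, A S v * x v + r S := by rw [← hcx]
    have h2 : c S - ∑ v, A S v * x v = r S := by rw [h1]; ring
    rw [h2]
    exact abs_le.mpr ⟨hxr.2.1 S, hxr.2.2 S⟩
  · exfalso
    obtain ⟨f, u, hf1, hf2⟩ := geometric_hahn_banach_closed_point (reach_convex A β ρ)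
      (reach_compact A β ρ).isClosed hc
    set y : ι → ℝ := fun S => f (Pi.single S 1) with hy
    have hfy : ∀ z : ι → ℝ, f z = ∑ S, z S * y S := by
      intro z
      have hz : z = ∑ S, z S • (Pi.single S (1 : ℝ) : ι → ℝ) := by
        funext T
        simp [Finset.sum_apply, Pi.single_apply]
      conv_lhs => rw [hz]
      rw [map_sum]
      exact Finset.sum_congr rfl fun S _ => by rw [map_smul, smul_eq_mul]
    have hs : ∀ a : ℝ, -1 ≤ (SignType.sign a : ℝ) ∧ (SignType.sign a : ℝ) ≤ 1 := by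
      intro a
      rcases lt_trichotomy a 0 with ha | ha | ha
      · rw [sign_neg ha]; constructor <;> norm_num
      · rw [ha, sign_zero]; constructor <;> norm_num
      · rw [sign_pos ha]; constructor <;> norm_num
    set x : κ → ℝ := fun v => β v * (SignType.sign (∑ S, A S v * y S) : ℝ) with hx
    set r : ι → ℝ := fun S => ρ S * (SignType.sign (y S) : ℝ) with hr
    have hmem : (fun S => ∑ v, A S v * x v + r S) ∈ Reach A β ρ := by
      refine ⟨(x, r), ?_, rfl⟩
      simp only [Set.mem_prod, Set.mem_Icc]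
      refine ⟨⟨fun v => ?_, fun v => ?_⟩, ⟨fun S => ?_, fun S => ?_⟩⟩
      · have := mul_le_mul_of_nonneg_left (hs (∑ S, A S v * y S)).1 (hβ v)
        simp only [hx]; linarith
      · have := mul_le_mul_of_nonneg_left (hs (∑ S, A S v * y S)).2 (hβ v)
        simp only [hx]; linarith
      · have := mul_le_mul_of_nonneg_left (hs (y S)).1 (hρ S)
        simp only [hr]; linarith
      · have := mul_le_mul_of_nonneg_left (hs (y S)).2 (hρ S)
        simp only [hr]; linarith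
    have h1 := hf1 _ hmem
    rw [hfy] at h1
    rw [hfy] at hf2
    have h3 := h y
    have h4 : ∑ S, (∑ v, A S v * x v + r S) * y S
        = ∑ v, β v * |∑ S, A S v * y S| + ∑ S, ρ S * |y S| := by
      have e1 : ∀ S, (∑ v, A S v * x v + r S) * y S
          = ∑ v, x v * (A S v * y S) + ρ S * |y S| := by
        intro S
        rw [add_mul, Finset.sum_mul]
        congr 1
        · exact Finset.sum_congr rfl fun v _ => by ring
        · simp only [hr]
          rw [← mul_sign_eq_abs (y S)]; ring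
      rw [Finset.sum_congr rfl fun S _ => e1 S, Finset.sum_add_distrib, Finset.sum_comm]
      congr 1
      refine Finset.sum_congr rfl fun v _ => ?_
      rw [← Finset.mul_sum, ← mul_sign_eq_abs (∑ S, A S v * y S)]
      simp only [hx]; ring
    linarith

theorem cert_necessary (A : ι → κ → ℝ) (c : ι → ℝ) (β : κ → ℝ) (ρ : ι → ℝ)
    (h : ∃ x : κ → ℝ, (∀ v, |x v| ≤ β v) ∧ ∀ S, |c S - ∑ v, A S v * x v| ≤ ρ S) (y : ι → ℝ) :
    ∑ S, c S * y S ≤ ∑ v, β v * |∑ S, A S v * y S| + ∑ S, ρ S * |y S| := by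
  obtain ⟨x, hx1, hx2⟩ := h
  have e : ∑ S, c S * y S = ∑ v, x v * (∑ S, A S v * y S)
      + ∑ S, (c S - ∑ v, A S v * x v) * y S := by
    have : ∀ S, c S * y S = ∑ v, x v * (A S v * y S) + (c S - ∑ v, A S v * x v) * y S := by
      intro S
      have : ∑ v, x v * (A S v * y S) = (∑ v, A S v * x v) * y S := by
        rw [Finset.sum_mul]; exact Finset.sum_congr rfl fun v _ => by ring
      rw [this]; ring
    rw [Finset.sum_congr rfl fun S _ => this S, Finset.sum_add_distrib, Finset.sum_comm]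
    congr 1
    exact Finset.sum_congr rfl fun v _ => by rw [Finset.mul_sum]
  rw [e]
  apply add_le_add
  · apply Finset.sum_le_sum
    intro v _
    calc x v * (∑ S, A S v * y S) ≤ |x v * (∑ S, A S v * y S)| := le_abs_self _
      _ = |x v| * |∑ S, A S v * y S| := abs_mul _ _
      _ ≤ β v * |∑ S, A S v * y S| := mul_le_mul_of_nonneg_right (hx1 v) (abs_nonneg _)
  · apply Finset.sum_le_sum
    intro S _
    calc (c S - ∑ v, A S v * x v) * y S ≤ |(c S - ∑ v, A S v * x v) * y S| := le_abs_self _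
      _ = |c S - ∑ v, A S v * x v| * |y S| := abs_mul _ _
      _ ≤ ρ S * |y S| := mul_le_mul_of_nonneg_right (hx2 S) (abs_nonneg _)

theorem cert_iff (A : ι → κ → ℝ) (c : ι → ℝ) (β : κ → ℝ) (ρ : ι → ℝ)
    (hβ : ∀ v, 0 ≤ β v) (hρ : ∀ S, 0 ≤ ρ S) :
    (∃ x : κ → ℝ, (∀ v, |x v| ≤ β v) ∧ ∀ S, |c S - ∑ v, A S v * x v| ≤ ρ S) ↔
    ∀ y : ι → ℝ, ∑ S, c S * y S ≤ ∑ v, β v * |∑ S, A S v * y S| + ∑ S, ρ S * |y S| :=
  ⟨fun h y => cert_necessary A c β ρ h y, fun h => cert_exists A c β ρ hβ hρ h⟩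

/-- certificate on a subspace -/
theorem cert_subspace (F : Submodule ℝ (κ → ℝ)) (ξ : κ → ℝ) (β : κ → ℝ) (hβ : ∀ v, 0 ≤ β v)
    (h : ∀ f ∈ F, ∑ v, ξ v * f v ≤ ∑ v, β v * |f v|) :
    ∃ x : κ → ℝ, (∀ v, |x v| ≤ β v) ∧ ∀ f ∈ F, ∑ v, (ξ v - x v) * f v = 0 := by
  classical
  let b := Module.finBasis ℝ F
  obtain ⟨x, hx1, hx2⟩ := cert_exists (ι := Fin (Module.finrank ℝ F)) (κ := κ)
    (fun i v => (b i : κ → ℝ) v) (fun i => ∑ v, ξ v * (b i : κ → ℝ) v) β (fun _ => 0)
    hβ (fun _ => le_refl _) (by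
      intro y
      have hf : (∑ i, y i • (b i : κ → ℝ)) ∈ F :=
        Submodule.sum_mem _ fun i _ => Submodule.smul_mem _ _ (b i).2
      have := h _ hf
      simp only [zero_mul, Finset.sum_const_zero, add_zero]
      have e : ∀ v, (∑ i, y i • (b i : κ → ℝ)) v = ∑ i, (b i : κ → ℝ) v * y i := by
        intro v
        simp only [Finset.sum_apply, Pi.smul_apply, smul_eq_mul]
        exact Finset.sum_congr rfl fun i _ => by ring
      calc ∑ i, (∑ v, ξ v * (b i : κ → ℝ) v) * y i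
          = ∑ v, ξ v * (∑ i, y i • (b i : κ → ℝ)) v := by
            simp only [e, Finset.sum_mul, Finset.mul_sum]
            rw [Finset.sum_comm]
            exact Finset.sum_congr rfl fun v _ => Finset.sum_congr rfl fun i _ => by ring
        _ ≤ ∑ v, β v * |(∑ i, y i • (b i : κ → ℝ)) v| := this
        _ = ∑ v, β v * |∑ i, (b i : κ → ℝ) v * y i| := by simp only [e])
  refine ⟨x, hx1, fun f hf => ?_⟩
  have hz : ∀ i, ∑ v, (ξ v - x v) * (b i : κ → ℝ) v = 0 := by
    intro i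
    have h0 := hx2 i
    have h1 : (∑ v, ξ v * (b i : κ → ℝ) v) - ∑ v, (b i : κ → ℝ) v * x v = 0 := by
      have := abs_nonneg ((∑ v, ξ v * (b i : κ → ℝ) v) - ∑ v, (b i : κ → ℝ) v * x v)
      exact abs_eq_zero.mp (le_antisymm h0 this)
    rw [← h1, ← Finset.sum_sub_distrib]
    exact Finset.sum_congr rfl fun v _ => by ring
  have hrep : f = ∑ i, b.repr ⟨f, hf⟩ i • (b i : κ → ℝ) := by
    have := congrArg (fun z : F => (z : κ → ℝ)) (b.sum_repr ⟨f, hf⟩)
    simp only [AddSubmonoidClass.coe_finsetSum, Submodule.coe_smul] at this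
    exact this.symm
  rw [hrep]
  simp only [Finset.sum_apply, Pi.smul_apply, smul_eq_mul, Finset.mul_sum]
  rw [Finset.sum_comm]
  apply Finset.sum_eq_zero
  intro i _
  have : ∑ v, (ξ v - x v) * (b.repr ⟨f, hf⟩ i * (b i : κ → ℝ) v)
      = b.repr ⟨f, hf⟩ i * ∑ v, (ξ v - x v) * (b i : κ → ℝ) v := by
    rw [Finset.mul_sum]; exact Finset.sum_congr rfl fun v _ => by ring
  rw [this, hz i, mul_zero]

end Pool.Agent.Helper92.NF
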